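import Pool.Agent.Helper75.PX.Stmts5

set_option autoImplicit false

universe u

open Module

namespace Pool.Agent.Helper75.PX

section
variable {K A : Type*} [Field K] [Ring A] [Algebra K A]

theorem b3a_canc {x j : A} {a c : K} (h : D3a x j a c) {p : A} (hp : p * j = 0) : p = 0 := by
  have h1 : p * (j * j * j) = 0 := by
    rw [← mul_assoc, ← mul_assoc, hp, zero_mul, zero_mul]
  rw [h.hj] at h1
  have h2 : (p * algebraMap K A c) * algebraMap K A c⁻¹ = 0 := by rw [h1, zero_mul]
  rwa [mul_assoc, ← map_mul, mul_inv_cancel₀ h.c0, map_one, mul_one] at h2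

theorem b3a_three (h3 : (3 : K) = 0) (s : A) : s + s + s = 0 := by
  have h : (3 : A) = 0 := by
    have h1 : algebraMap K A 3 = (3 : A) := map_ofNat (algebraMap K A) 3
    rw [← h1, h3, map_zero]
  have h2 : s + s + s = 3 * s := by noncomm_ring
  rw [h2, h, zero_mul]

theorem b3a_two (h3 : (3 : K) = 0) {s : A} (hs : s + s = 0) : s = 0 := by
  have h := b3a_three (A := A) h3 s
  rwa [hs, zero_add] at h

theorem b3a_lin [Nontrivial A] {x j : A} {a c : K} (h : D3a x j a c) (h3 : (3 : K) = 0)
    (p0 p1 p2 : K) (h0 : algebraMap K A p0 + algebraMap K A p1 * x +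
      algebraMap K A p2 * (x * x) = 0) : p0 = 0 ∧ p1 = 0 ∧ p2 = 0 := by
  have hinj : ∀ p : K, algebraMap K A p = 0 → p = 0 := by
    intro p hp
    rw [← map_zero (algebraMap K A)] at hp
    exact (algebraMap K A).injective hp
  have c0 : j * algebraMap K A p0 = algebraMap K A p0 * j := (Algebra.commutes p0 j).symm
  have c1 : j * algebraMap K A p1 = algebraMap K A p1 * j := (Algebra.commutes p1 j).symm
  have c2 : j * algebraMap K A p2 = algebraMap K A p2 * j := (Algebra.commutes p2 j).symm
  have hx := h.hjx
  have e1 : algebraMap K A p0 + algebraMap K A p1 * (x + 1) +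
      algebraMap K A p2 * ((x + 1) * (x + 1)) = 0 := by
    apply b3a_canc h
    have e : j * (algebraMap K A p0 + algebraMap K A p1 * x +
      algebraMap K A p2 * (x * x)) = (algebraMap K A p0 + algebraMap K A p1 * (x + 1) +
      algebraMap K A p2 * ((x + 1) * (x + 1))) * j := by
      calc j * (algebraMap K A p0 + algebraMap K A p1 * x + algebraMap K A p2 * (x * x))
          = j * algebraMap K A p0 + (j * algebraMap K A p1) * x +
            (j * algebraMap K A p2) * x * x := by noncomm_ring
        _ = algebraMap K A p0 * j + algebraMap K A p1 * (j * x) +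
            algebraMap K A p2 * (j * x) * x := by rw [c0, c1, c2]; noncomm_ring
        _ = algebraMap K A p0 * j + algebraMap K A p1 * ((x + 1) * j) +
            algebraMap K A p2 * ((x + 1) * j) * x := by rw [hx]
        _ = algebraMap K A p0 * j + algebraMap K A p1 * ((x + 1) * j) +
            algebraMap K A p2 * (x + 1) * (j * x) := by noncomm_ring
        _ = algebraMap K A p0 * j + algebraMap K A p1 * ((x + 1) * j) +
            algebraMap K A p2 * (x + 1) * ((x + 1) * j) := by rw [hx]
        _ = _ := by noncomm_ring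
    rw [← e, h0, mul_zero]
  have e2 : algebraMap K A p1 + algebraMap K A p2 * (x + x + 1) = 0 := by
    have e : algebraMap K A p1 + algebraMap K A p2 * (x + x + 1) =
        (algebraMap K A p0 + algebraMap K A p1 * (x + 1) +
          algebraMap K A p2 * ((x + 1) * (x + 1))) -
        (algebraMap K A p0 + algebraMap K A p1 * x + algebraMap K A p2 * (x * x)) := by
      noncomm_ring
    rw [e, e1, h0, sub_zero]
  have e3 : algebraMap K A p1 + algebraMap K A p2 * (x + 1 + (x + 1) + 1) = 0 := by
    apply b3a_canc h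
    have e : j * (algebraMap K A p1 + algebraMap K A p2 * (x + x + 1)) =
        (algebraMap K A p1 + algebraMap K A p2 * (x + 1 + (x + 1) + 1)) * j := by
      calc j * (algebraMap K A p1 + algebraMap K A p2 * (x + x + 1))
          = j * algebraMap K A p1 + (j * algebraMap K A p2) * (x + x + 1) := by noncomm_ring
        _ = algebraMap K A p1 * j + algebraMap K A p2 * (j * x + j * x + j) := by
            rw [c1, c2]; noncomm_ring
        _ = _ := by rw [hx]; noncomm_ring
    rw [← e, e2, mul_zero]
  have e4 : algebraMap K A p2 + algebraMap K A p2 = 0 := by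
    have e : algebraMap K A p2 + algebraMap K A p2 =
        (algebraMap K A p1 + algebraMap K A p2 * (x + 1 + (x + 1) + 1)) -
        (algebraMap K A p1 + algebraMap K A p2 * (x + x + 1)) := by noncomm_ring
    rw [e, e3, e2, sub_zero]
  have f2 := b3a_two h3 e4
  rw [f2, zero_mul, add_zero] at e2
  rw [f2, e2, zero_mul, zero_mul, add_zero, add_zero] at h0
  exact ⟨hinj _ h0, hinj _ e2, hinj _ f2⟩

theorem b3a_rel {x j : A} {a c : K} (h : D3a x j a c) (h3 : (3 : K) = 0) (P Q S : A)
    (hP : x * P = P * x) (hQ : x * Q = Q * x) (hS : x * S = S * x)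
    (h0 : P + Q * j + S * (j * j) = 0) : P = 0 ∧ Q = 0 ∧ S = 0 := by
  have hx := h.hjx
  have hx2 : j * j * x = (x + 1 + 1) * (j * j) := by
    calc j * j * x = j * (j * x) := by rw [mul_assoc]
      _ = j * ((x + 1) * j) := by rw [hx]
      _ = (j * x + j) * j := by noncomm_ring
      _ = ((x + 1) * j + j) * j := by rw [hx]
      _ = _ := by noncomm_ring
  have e1 : Q + (S + S) * j = 0 := by
    apply b3a_canc h
    have e : (Q + (S + S) * j) * j =
        (P + Q * j + S * (j * j)) * x - x * (P + Q * j + S * (j * j)) := by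
      calc (Q + (S + S) * j) * j
          = (P * x - P * x) + (Q * ((x + 1) * j) - (Q * x) * j) +
            (S * ((x + 1 + 1) * (j * j)) - (S * x) * (j * j)) := by noncomm_ring
        _ = (P * x - x * P) + (Q * (j * x) - (x * Q) * j) +
            (S * (j * j * x) - (x * S) * (j * j)) := by rw [hx, hx2, hP, hQ, hS]
        _ = _ := by noncomm_ring
    rw [e, h0, zero_mul, mul_zero, sub_zero]
  have e2 : S + S = 0 := by
    apply b3a_canc h
    have e : (S + S) * j = (Q + (S + S) * j) * x - x * (Q + (S + S) * j) := by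
      calc (S + S) * j = (Q * x - Q * x) + ((S + S) * ((x + 1) * j) - (S * x + S * x) * j) := by
            noncomm_ring
        _ = (Q * x - x * Q) + ((S + S) * (j * x) - (x * S + x * S) * j) := by rw [hx, hQ, hS]
        _ = _ := by noncomm_ring
    rw [e, e1, zero_mul, mul_zero, sub_zero]
  have f2 := b3a_two h3 e2
  rw [e2, zero_mul, add_zero] at e1
  rw [e1, f2, zero_mul, zero_mul, add_zero, add_zero] at h0
  exact ⟨h0, e1, f2⟩

theorem b3a_comm (x : A) (p0 p1 p2 : K) :
    x * (algebraMap K A p0 + algebraMap K A p1 * x + algebraMap K A p2 * (x * x)) =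
      (algebraMap K A p0 + algebraMap K A p1 * x + algebraMap K A p2 * (x * x)) * x := by
  have c0 : x * algebraMap K A p0 = algebraMap K A p0 * x := (Algebra.commutes p0 x).symm
  have c1 : x * algebraMap K A p1 = algebraMap K A p1 * x := (Algebra.commutes p1 x).symm
  have c2 : x * algebraMap K A p2 = algebraMap K A p2 * x := (Algebra.commutes p2 x).symm
  calc x * (algebraMap K A p0 + algebraMap K A p1 * x + algebraMap K A p2 * (x * x))
      = x * algebraMap K A p0 + (x * algebraMap K A p1) * x +
        (x * algebraMap K A p2) * (x * x) := by noncomm_ring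
    _ = _ := by rw [c0, c1, c2]; noncomm_ring

end

theorem st_B3a : ST_B3a.{u} := by
  intro K A _ _ _ _ x j a c h3 h
  rw [Fintype.linearIndependent_iff]
  intro g hg
  have e : (algebraMap K A (g (0, 0)) + algebraMap K A (g (1, 0)) * x +
        algebraMap K A (g (2, 0)) * (x * x)) +
      (algebraMap K A (g (0, 1)) + algebraMap K A (g (1, 1)) * x +
        algebraMap K A (g (2, 1)) * (x * x)) * j +
      (algebraMap K A (g (0, 2)) + algebraMap K A (g (1, 2)) * x +
        algebraMap K A (g (2, 2)) * (x * x)) * (j * j) = 0 := by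
    rw [← hg]
    simp only [Fintype.sum_prod_type, Fin.sum_univ_three, e3c, Algebra.smul_def]
    simp only [Fin.val_zero, Fin.val_one, Fin.val_two, pow_zero, pow_one, mul_one, one_mul,
      pow_two]
    noncomm_ring
  obtain ⟨h0, h1, h2⟩ := b3a_rel h h3 _ _ _ (b3a_comm x _ _ _) (b3a_comm x _ _ _)
    (b3a_comm x _ _ _) e
  obtain ⟨a1, a2, a3⟩ := b3a_lin h h3 _ _ _ h0
  obtain ⟨b1, b2, b3⟩ := b3a_lin h h3 _ _ _ h1
  obtain ⟨c1, c2, c3⟩ := b3a_lin h h3 _ _ _ h2
  rintro ⟨i, k⟩
  fin_cases i <;> fin_cases k <;> assumption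

end Pool.Agent.Helper75.PX
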