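import Pool.Agent.Helper75.PX.Stmts6
import Pool.Agent.Helper56.PX.M4

/-! Row M4b: generators of the two by two matrices over a quaternion algebra, characteristic
two. -/

set_option autoImplicit false

universe u

namespace Pool.Agent.Helper75.PX

/-- the element `p + q i` -/
def m4b_L {K Q : Type*} [Field K] [Ring Q] [Algebra K Q] (i : Q) (p q : K) : Q :=
  p • (1 : Q) + q • i

section
variable {K Q : Type*} [Field K] [Ring Q] [Algebra K Q] {i j : Q} {x y : K}

theorem m4b_mul (h : D2c i j x y) (p q p' q' : K) :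
    m4b_L i p q * m4b_L i p' q' = m4b_L i (p * p' + q * q' * x) (p * q' + q * p' + q * q') := by
  have hi := h.hi
  rw [Algebra.algebraMap_eq_smul_one] at hi
  unfold m4b_L
  simp only [mul_add, add_mul, smul_mul_assoc, mul_smul_comm, one_mul, mul_one, hi]
  module

theorem m4b_add (i : Q) (p q p' q' : K) :
    m4b_L i p q + m4b_L i p' q' = m4b_L i (p + p') (q + q') := by
  unfold m4b_L
  module

theorem m4b_smul (i : Q) (c p q : K) : c • m4b_L i p q = m4b_L i (c * p) (c * q) := by
  unfold m4b_L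
  module

theorem m4b_j (h : D2c i j x y) (p q : K) :
    j * m4b_L i p q = m4b_L i (p + q) q * j := by
  have hj := h.hji
  unfold m4b_L
  simp only [mul_add, add_mul, smul_mul_assoc, mul_smul_comm, one_mul, mul_one, hj]
  module

theorem m4b_congr (i : Q) {p q p' q' : K} (h1 : p = p') (h2 : q = q') :
    m4b_L i p q = m4b_L i p' q' := by
  rw [h1, h2]

theorem m4b_one (i : Q) : (1 : Q) = m4b_L (K := K) i 1 0 := by
  unfold m4b_L
  module

theorem m4b_zero (i : Q) : m4b_L (K := K) i 0 0 = 0 := by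
  unfold m4b_L
  module

theorem m4b_c1 (i : Q) (c : K) : c • (1 : Q) = m4b_L i c 0 := by
  unfold m4b_L
  module

end

theorem st_M4b : ST_M4b.{u} := by
  intro K Q _ _ _ h2 hk i j x y h
  obtain ⟨k, hk0, hk1⟩ := hk
  have hk3 : k + 1 ≠ 0 := fun h => hk1 (by linear_combination h - h2)
  obtain ⟨s, hs⟩ : ∃ s : K, s ^ 2 + s + x ≠ 0 := by
    by_cases hx : x = 0
    · refine ⟨k, ?_⟩
      have e : k ^ 2 + k + x = k * (k + 1) := by rw [hx]; ring
      rw [e]
      exact mul_ne_zero hk0 hk3
    · refine ⟨0, ?_⟩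
      have e : (0 : K) ^ 2 + 0 + x = x := by ring
      rw [e]
      exact hx
  have hkk : k ^ 2 + k ≠ 0 := by
    have e : k ^ 2 + k = k * (k + 1) := by ring
    rw [e]
    exact mul_ne_zero hk0 hk3
  obtain ⟨g, hg⟩ : ∃ g : K, g * ((k ^ 2 + k) * (s ^ 2 + s + x)) = 1 :=
    ⟨((k ^ 2 + k) * (s ^ 2 + s + x))⁻¹, inv_mul_cancel₀ (mul_ne_zero hkk hs)⟩
  have hjj : j * j = m4b_L i y 0 := by
    rw [h.hj, Algebra.algebraMap_eq_smul_one, m4b_c1 i]
  -- products with `j`
  have hLj : ∀ p q p' q' : K, m4b_L i p q * (m4b_L i p' q' * j) =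
      m4b_L i (p * p' + q * q' * x) (p * q' + q * p' + q * q') * j := by
    intro p q p' q'
    rw [← mul_assoc, m4b_mul h]
  have hLjL : ∀ p q p' q' : K, m4b_L i p q * j * m4b_L i p' q' =
      m4b_L i (p * (p' + q') + q * q' * x) (p * q' + q * (p' + q') + q * q') * j := by
    intro p q p' q'
    rw [mul_assoc, m4b_j h, ← mul_assoc, m4b_mul h]
  have hLjLj : ∀ p q p' q' : K, m4b_L i p q * j * (m4b_L i p' q' * j) =
      y • m4b_L i (p * (p' + q') + q * q' * x) (p * q' + q * (p' + q') + q * q') := by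
    intro p q p' q'
    rw [← mul_assoc, hLjL, mul_assoc, hjj, m4b_mul h, m4b_smul]
    exact m4b_congr i (by ring) (by ring)
  have hU : uE (!![m4b_L i (1 + k ^ 2) 0, 0; 0, m4b_L i (k ^ 2) 0])
      (!![m4b_L i (x + s ^ 2) 1, 0; 0, m4b_L i (x + s ^ 2) 1]) ![0, 0, g, g] =
      !![m4b_L i (g * k ^ 2 * (x + s ^ 2)) (g * k ^ 2), 0;
        0, m4b_L i (g * (1 + k ^ 2) * (x + s ^ 2)) (g * (1 + k ^ 2))] := by
    unfold uE
    simp only [Matrix.cons_val_zero, Matrix.cons_val_one, Matrix.cons_val]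
    rw [M4_one, Matrix.mul_fin_two, M4_smul, M4_smul, M4_smul, M4_smul, M4_add, M4_add, M4_add]
    refine M4_ext ?_ ?_ ?_ ?_
    · rw [m4b_one (K := K) i, m4b_mul h, mul_zero, add_zero, m4b_smul, m4b_smul, m4b_smul,
        m4b_smul, m4b_add, m4b_add, m4b_add]
      refine m4b_congr i ?_ ?_
      · linear_combination (g * (x + s ^ 2)) * h2
      · linear_combination g * h2
    · simp
    · simp
    · rw [m4b_one (K := K) i, m4b_mul h, mul_zero, zero_add, m4b_smul, m4b_smul, m4b_smul,
        m4b_smul, m4b_add, m4b_add, m4b_add]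
      refine m4b_congr i ?_ ?_
      · ring
      · ring
  refine ⟨!![m4b_L i (1 + k ^ 2) 0, 0; 0, m4b_L i (k ^ 2) 0],
    !![m4b_L i (x + s ^ 2) 1, 0; 0, m4b_L i (x + s ^ 2) 1],
    !![0, m4b_L i s 1; m4b_L i s 1, 0],
    !![m4b_L i (k + 1) 0 * j, 0; 0, m4b_L i k 0 * j],
    k ^ 4 + k ^ 2, (x + s ^ 2 + s) ^ 2, 1, y, ![0, 0, g, g], ?_⟩
  refine
    { haa := ?_
      hbb := ?_
      hab := ?_
      hza := ?_
      hzb := ?_
      hwa := ?_
      hwb := ?_
      hzz := ?_
      hww := ?_
      hzw := ?_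
      a0 := ?_
      b0 := ?_
      p0 := one_ne_zero
      r0 := h.b0 }
  · rw [M4_am, Matrix.mul_fin_two, M4_add]
    refine M4_ext ?_ ?_ ?_ ?_
    · rw [mul_zero, add_zero, m4b_c1 i, m4b_mul h, m4b_add]
      exact m4b_congr i (by ring) (by ring)
    · simp
    · simp
    · rw [mul_zero, zero_add, m4b_c1 i, m4b_mul h, m4b_add]
      refine m4b_congr i ?_ (by ring)
      linear_combination (-(k ^ 2)) * h2
  · rw [M4_am, Matrix.mul_fin_two, M4_add]
    refine M4_ext ?_ ?_ ?_ ?_
    · rw [mul_zero, add_zero, m4b_c1 i, m4b_mul h, m4b_add]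
      refine m4b_congr i ?_ ?_
      · linear_combination (-(s ^ 2) - (x + s ^ 2) * s) * h2
      · linear_combination (x + s ^ 2) * h2
    · simp
    · simp
    · rw [mul_zero, zero_add, m4b_c1 i, m4b_mul h, m4b_add]
      refine m4b_congr i ?_ ?_
      · linear_combination (-(s ^ 2) - (x + s ^ 2) * s) * h2
      · linear_combination (x + s ^ 2) * h2
  · rw [Matrix.mul_fin_two, Matrix.mul_fin_two]
    refine M4_ext ?_ ?_ ?_ ?_
    · rw [mul_zero, add_zero, add_zero, m4b_mul h, m4b_mul h]
      exact m4b_congr i (by ring) (by ring)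
    · simp
    · simp
    · rw [mul_zero, zero_add, zero_add, m4b_mul h, m4b_mul h]
      exact m4b_congr i (by ring) (by ring)
  · rw [M4_one, M4_add, Matrix.mul_fin_two, Matrix.mul_fin_two]
    refine M4_ext ?_ ?_ ?_ ?_
    · simp
    · rw [m4b_one (K := K) i, m4b_add, zero_mul, zero_add, add_zero, add_zero, zero_mul, add_zero,
        m4b_mul h, m4b_mul h]
      refine m4b_congr i ?_ ?_
      · linear_combination (-s) * h2
      · linear_combination (-1 : K) * h2
    · rw [m4b_one (K := K) i, m4b_add, mul_zero, add_zero, add_zero, zero_mul, zero_add,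
        m4b_mul h, m4b_mul h]
      refine m4b_congr i ?_ ?_
      · ring
      · ring
    · simp
  · rw [Matrix.mul_fin_two, Matrix.mul_fin_two]
    refine M4_ext ?_ ?_ ?_ ?_
    · simp
    · simp only [zero_mul, mul_zero, zero_add, add_zero]
      rw [m4b_mul h, m4b_mul h]
      exact m4b_congr i (by ring) (by ring)
    · simp only [zero_mul, mul_zero, zero_add, add_zero]
      rw [m4b_mul h, m4b_mul h]
      exact m4b_congr i (by ring) (by ring)
    · simp
  · rw [Matrix.mul_fin_two, Matrix.mul_fin_two]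
    refine M4_ext ?_ ?_ ?_ ?_
    · simp only [zero_mul, mul_zero, zero_add, add_zero]
      rw [hLjL, hLj]
      exact congrArg (· * j) (m4b_congr i (by ring) (by ring))
    · simp
    · simp
    · simp only [zero_mul, mul_zero, zero_add, add_zero]
      rw [hLjL, hLj]
      exact congrArg (· * j) (m4b_congr i (by ring) (by ring))
  · rw [M4_one, M4_add, Matrix.mul_fin_two, Matrix.mul_fin_two]
    refine M4_ext ?_ ?_ ?_ ?_
    · rw [m4b_one (K := K) i, m4b_add, mul_zero, add_zero, mul_zero, add_zero, hLjL, hLj]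
      exact congrArg (· * j) (m4b_congr i (by ring) (by ring))
    · simp
    · simp
    · rw [m4b_one (K := K) i, m4b_add, zero_mul, zero_add, mul_zero, zero_add, hLjL, hLj]
      exact congrArg (· * j) (m4b_congr i (by ring) (by ring))
  · rw [Matrix.mul_fin_two, M4_smul]
    refine M4_ext ?_ ?_ ?_ ?_
    · rw [zero_mul, zero_add, m4b_mul h, one_smul]
      refine m4b_congr i ?_ ?_
      · ring
      · linear_combination s * h2
    · simp
    · simp
    · rw [mul_zero, add_zero, m4b_mul h, one_smul]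
      refine m4b_congr i ?_ ?_
      · ring
      · linear_combination s * h2
  · rw [Matrix.mul_fin_two, M4_smul]
    refine M4_ext ?_ ?_ ?_ ?_
    · rw [mul_zero, add_zero, hLjLj]
      refine congrArg (y • ·) (m4b_congr i ?_ ?_)
      · linear_combination k * h2
      · ring
    · simp
    · simp
    · rw [mul_zero, zero_add, hLjLj]
      refine congrArg (y • ·) (m4b_congr i ?_ ?_)
      · ring
      · ring
  · rw [hU, Matrix.mul_fin_two, Matrix.mul_fin_two, Matrix.mul_fin_two]
    refine M4_ext ?_ ?_ ?_ ?_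
    · simp
    · simp only [zero_mul, mul_zero, zero_add, add_zero]
      rw [hLj, hLjL, hLj]
      refine congrArg (· * j) (m4b_congr i ?_ ?_)
      · linear_combination (-(k * s)) * hg - (x * g * k ^ 2 * (k + 1)) * h2
      · linear_combination (-k) * hg - (g * k ^ 2 * (k + 1)) * h2
    · simp only [zero_mul, mul_zero, zero_add, add_zero]
      rw [hLj, hLjL, hLj]
      refine congrArg (· * j) (m4b_congr i ?_ ?_)
      · linear_combination (-((k + 1) * s)) * hg -
          (-(k ^ 2 * g * s * (s ^ 2 + s + x)) + x * g * (1 + k ^ 2) * k) * h2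
      · linear_combination (-(k + 1)) * hg -
          (-(k ^ 2 * g * (s ^ 2 + s + x)) + g * (1 + k ^ 2) * k) * h2
    · simp
  · have e : k ^ 4 + k ^ 2 = (k * (k + 1)) ^ 2 := by linear_combination (-(k ^ 3)) * h2
    rw [e]
    exact pow_ne_zero 2 (mul_ne_zero hk0 hk3)
  · refine pow_ne_zero 2 ?_
    intro h0
    exact hs (by linear_combination h0)

end Pool.Agent.Helper75.PX
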