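import Pool.Agent.Helper75.PX.Stmts2

/-! Row TM2 of sheet 2 of PX. -/

set_option autoImplicit false

universe u

open Module TensorProduct

namespace Pool.Agent.Helper75.PX

theorem st_TM2 (h1 : ST_TM1.{u}) : ST_TM2.{u} := by
  intro K A B _ _ _ _ _ m
  obtain ⟨e⟩ := h1 K B A m
  exact ⟨((Algebra.TensorProduct.comm K (Matrix (Fin m) (Fin m) A) B).trans e).trans
    (AlgEquiv.mapMatrix (Algebra.TensorProduct.comm K B A))⟩

end Pool.Agent.Helper75.PX
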